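import Pool.Agent.helper738_Eul.HullMain

/-!
# All linear inequalities for the f-vectors of Eulerian posets, in every rank

For every `n`, the closed convex hull of the vectors `(f_{1}, ..., f_{n})` of all Eulerian posets
of rank `n + 1` is cut out by the Euler relation and the inequalities `f_{i} ≥ 2`,
`f_{1} ≤ f_{2}`, `f_{n} ≤ f_{n-1}`.
-/

namespace Pool.Agent.Results.MP_685082_co.FVectorHull

open Pool.Agent.Helper738Eul

theorem result (n : ℕ) : closure (convexHull ℝ (FVectors n)) =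
    {x : Fin n → ℝ | (∀ i, 2 ≤ x i) ∧ ∑ i : Fin n, (-1 : ℝ) ^ (i : ℕ) * x i = 1 - (-1) ^ n ∧
      (∀ i j : Fin n, (i : ℕ) = 0 → (j : ℕ) = 1 → x i ≤ x j) ∧
      (∀ i j : Fin n, (i : ℕ) + 1 = n → (j : ℕ) + 2 = n → x i ≤ x j)} :=
  hull_eq n

end Pool.Agent.Results.MP_685082_co.FVectorHull
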