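import Pool.Agent.helper738_F4.Main

/-!
# The flag f-vectors of the Eulerian posets of rank five

The set `F_4` is determined: a vector indexed by the subsets of `[4]` is the flag f-vector of an
Eulerian poset of rank five iff it has the form `IsFlag v a b B g` for numbers satisfying
explicit arithmetic conditions.
-/

namespace Pool.Agent.Results.MP_685082_co.FlagVectorsRankFive

open Pool.Agent.Helper738Eul Pool.Agent.Helper738F4

theorem result (v : Finset (Fin 4) → ℤ) :
    v ∈ FlagVectors 4 ↔ ∃ a b B g : ℕ, IsFlag v a b B g ∧ Admissible a b B g :=
  mem_flagVectors_four v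

end Pool.Agent.Results.MP_685082_co.FlagVectorsRankFive
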